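import Pool.Agent.H363R2.PPCnt
import Pool.Agent.H361R2.PP.Cls1

/-! Shifts in an interval which are coprime to the primorial and in a given residue class. -/

set_option autoImplicit false

open Finset

namespace Pool.Agent.H961PP

open Pool.Agent.H361R2.PP
open Pool.Agent.H363R2.PPCnt (Wm_le tendsto_log Wm_pos)

theorem card_periodG (p : ℕ → Prop) [DecidablePred p] (W n k : ℕ) (hp : Function.Periodic p W) :
    ((Ico n (n + k * W)).filter p).card = k * W.count p := by
  induction k with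
  | zero => simp
  | succ k ih =>
    have h1 : Ico n (n + (k + 1) * W) = Ico n (n + k * W) ∪ Ico (n + k * W) (n + k * W + W) := by
      rw [Finset.Ico_union_Ico_eq_Ico (by omega) (by omega)]
      congr 1
      ring
    have hd : Disjoint (Ico n (n + k * W)) (Ico (n + k * W) (n + k * W + W)) :=
      Finset.Ico_disjoint_Ico_consecutive _ _ _
    rw [h1, Finset.filter_union, Finset.card_union_of_disjoint
      (Finset.disjoint_filter_filter hd), ih, Nat.filter_Ico_card_eq_of_periodic _ _ _ hp]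
    ring

theorem card_intervalG (p : ℕ → Prop) [DecidablePred p] (W n L : ℕ) (hW : 0 < W)
    (hp : Function.Periodic p W) :
    |((((Ico n (n + L)).filter p).card : ℕ) : ℝ) - (L : ℝ) * (W.count p / W)| ≤ W.count p := by
  have hW' : (0 : ℝ) < W := by exact_mod_cast hW
  have hlow : (L / W) * W.count p ≤ ((Ico n (n + L)).filter p).card := by
    rw [← card_periodG p W n (L / W) hp]
    apply Finset.card_le_card
    apply Finset.filter_subset_filter
    apply Finset.Ico_subset_Ico_right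
    have := Nat.div_mul_le_self L W
    omega
  have hup : ((Ico n (n + L)).filter p).card ≤ (L / W + 1) * W.count p := by
    rw [← card_periodG p W n (L / W + 1) hp]
    apply Finset.card_le_card
    apply Finset.filter_subset_filter
    apply Finset.Ico_subset_Ico_right
    have := Nat.lt_div_mul_add (a := L) hW
    have e : (L / W + 1) * W = L / W * W + W := by ring
    omega
  have h1 : ((L / W : ℕ) : ℝ) ≤ (L : ℝ) / W := Nat.cast_div_le
  have h2 : (L : ℝ) / W ≤ ((L / W : ℕ) : ℝ) + 1 := by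
    rw [div_le_iff₀ hW']
    have := (Nat.lt_div_mul_add (a := L) hW).le
    have h3 : (L : ℝ) ≤ ((L / W * W + W : ℕ) : ℝ) := by exact_mod_cast this
    push_cast at h3
    linarith
  have hφ : (0 : ℝ) ≤ W.count p := Nat.cast_nonneg _
  have hlow' : ((L / W : ℕ) : ℝ) * W.count p ≤
      (((Ico n (n + L)).filter p).card : ℝ) := by exact_mod_cast hlow
  have hup' : (((Ico n (n + L)).filter p).card : ℝ) ≤
      (((L / W : ℕ) : ℝ) + 1) * W.count p := by exact_mod_cast hup
  have e : (L : ℝ) * (W.count p / W) = (L : ℝ) / W * W.count p := by ring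
  rw [e, abs_le]
  constructor
  · nlinarith
  · nlinarith

/-- the class condition -/
def cp (W q e x : ℕ) : Prop := W.Coprime x ∧ x ≡ e [MOD q]

instance (W q e : ℕ) : DecidablePred (cp W q e) := fun x => by
  unfold cp
  infer_instance

theorem cp_periodic (W q e : ℕ) (hq : q ∣ W) : Function.Periodic (cp W q e) W := by
  intro x
  unfold cp
  apply propext
  rw [Nat.coprime_add_self_right]
  have h1 : x + W ≡ x [MOD q] := by
    have h2 : W ≡ 0 [MOD q] := (Nat.modEq_zero_iff_dvd).2 hq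
    have := h2.add_left x
    simpa using this
  constructor
  · rintro ⟨h2, h3⟩
    exact ⟨h2, h1.symm.trans h3⟩
  · rintro ⟨h2, h3⟩
    exact ⟨h2, h1.trans h3⟩

theorem count_cp (q W' e : ℕ) (hcop : q.Coprime W') (hq : 0 < q) (hW' : 0 < W')
    (he : e.Coprime q) : (q * W').count (cp (q * W') q e) * q.totient = (q * W').totient := by
  rw [Nat.totient_mul hcop, mul_comm]
  congr 1
  rw [Nat.count_eq_card_filter_range, Nat.totient]
  apply card_bij (fun x _ => x % W')
  · intro x hx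
    rw [mem_filter, mem_range] at hx
    obtain ⟨hx1, hx2, hx3⟩ := hx
    rw [mem_filter, mem_range]
    refine ⟨Nat.mod_lt _ hW', ?_⟩
    have h1 : W'.Coprime x := Nat.Coprime.coprime_dvd_left (Dvd.intro_left q rfl) hx2
    rw [Nat.coprime_comm, Nat.coprime_iff_gcd_eq_one] at h1 ⊢
    rw [← Nat.ModEq.gcd_eq (Nat.mod_modEq x W').symm]
    exact h1
  · intro x hx y hy hxy
    rw [mem_filter, mem_range] at hx hy
    obtain ⟨hx1, hx2, hx3⟩ := hx
    obtain ⟨hy1, hy2, hy3⟩ := hy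
    have h1 : x ≡ y [MOD q] := hx3.trans hy3.symm
    have h2 : x ≡ y [MOD W'] := hxy
    have h3 : x ≡ y [MOD q * W'] := (Nat.modEq_and_modEq_iff_modEq_mul hcop).1 ⟨h1, h2⟩
    exact Nat.ModEq.eq_of_lt_of_lt h3 hx1 hy1
  · intro y hy
    rw [mem_filter, mem_range] at hy
    obtain ⟨hy1, hy2⟩ := hy
    obtain ⟨hz1, hz2⟩ := (Nat.chineseRemainder hcop e y).2
    have hz3 := Nat.chineseRemainder_lt_mul hcop e y hq.ne' hW'.ne'
    refine ⟨(Nat.chineseRemainder hcop e y : ℕ), ?_, ?_⟩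
    · rw [mem_filter, mem_range]
      refine ⟨hz3, ?_, hz1⟩
      apply Nat.Coprime.mul_left
      · rw [Nat.coprime_comm, Nat.coprime_iff_gcd_eq_one, hz1.gcd_eq]
        exact he
      · rw [Nat.coprime_comm, Nat.coprime_iff_gcd_eq_one, hz2.gcd_eq]
        exact hy2.symm
    · have h4 : (Nat.chineseRemainder hcop e y : ℕ) % W' = y % W' := hz2
      rw [h4, Nat.mod_eq_of_lt hy1]

/-- the shifts of the class -/
noncomputable def AQ (ε Λ : ℝ) (q e X b : ℕ) : Finset ℕ :=
  (BB X b ⌊Λ * Real.log X⌋₊).filter (fun a : ℕ => a ≤ ⌊ε * Real.log X⌋₊ ∧ b + a ≡ e [MOD q])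

theorem AQ_sub (ε Λ : ℝ) (q e X b : ℕ) : AQ ε Λ q e X b ⊆ BB X b ⌊Λ * Real.log X⌋₊ :=
  filter_subset _ _

theorem dvd_Wm (q : ℕ) (hq : Squarefree q) : ∃ X₀ : ℕ, ∀ X : ℕ, X₀ ≤ X → q ∣ Wm X := by
  have h1 : Filter.Tendsto (fun X : ℕ => Real.log (Real.log X) / 4) Filter.atTop Filter.atTop :=
    (Real.tendsto_log_atTop.comp tendsto_log).atTop_div_const (by norm_num)
  obtain ⟨X₀, hX₀⟩ := Filter.eventually_atTop.1 (h1.eventually_ge_atTop (q : ℝ))
  refine ⟨X₀, fun X hX => ?_⟩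
  have h2 : q ≤ HH X := Nat.le_floor (hX₀ X hX)
  unfold Wm primorial
  have hq0 : q ≠ 0 := hq.ne_zero
  rw [← Nat.prod_primeFactors_of_squarefree hq]
  apply Finset.prod_dvd_prod_of_subset
  intro p hp
  rw [mem_filter, mem_range]
  have h3 := Nat.le_of_dvd (Nat.pos_of_ne_zero hq0) (Nat.dvd_of_mem_primeFactors hp)
  exact ⟨by omega, Nat.prime_of_mem_primeFactors hp⟩

theorem squarefree_Wm (X : ℕ) : Squarefree (Wm X) := by
  unfold Wm primorial
  apply Finset.squarefree_prod_of_pairwise_isCoprime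
  · intro p hp r hr hpr
    rw [mem_coe, mem_filter] at hp hr
    exact Nat.coprime_iff_isRelPrime.1 ((Nat.coprime_primes hp.2 hr.2).2 hpr)
  · intro p hp
    rw [mem_filter] at hp
    exact hp.2.squarefree

theorem cntQ (q e : ℕ) (hq : Squarefree q) (he : e.Coprime q) (ε Λ : ℝ) (hε : 0 < ε)
    (hεΛ : ε ≤ Λ) (s : ℝ) (hs : 0 < s) : ∃ X₀ : ℕ, ∀ X : ℕ, X₀ ≤ X → ∀ b : ℕ,
      |((AQ ε Λ q e X b).card : ℝ) - ε / q.totient * Real.log X * (Nat.totient (Wm X) / Wm X)| ≤
        s * (ε / q.totient * Real.log X * (Nat.totient (Wm X) / Wm X)) := by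
  have hev : ∀ᶠ X : ℕ in Filter.atTop, max 1 ((2 / (s * ε)) ^ 2) ≤ Real.log X :=
    tendsto_log.eventually_ge_atTop _
  obtain ⟨X₀, hX₀⟩ := Filter.eventually_atTop.mp hev
  obtain ⟨X₁, hX₁⟩ := dvd_Wm q hq
  refine ⟨X₀ + X₁, fun X hX b => ?_⟩
  have hlog := hX₀ X (by omega)
  have hdvd := hX₁ X (by omega)
  have hlog1 : 1 ≤ Real.log X := le_trans (le_max_left _ _) hlog
  have hlog2 : (2 / (s * ε)) ^ 2 ≤ Real.log X := le_trans (le_max_right _ _) hlog
  have hq0 : 0 < q := Nat.pos_of_ne_zero hq.ne_zero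
  have hφq : (0 : ℝ) < q.totient := by exact_mod_cast Nat.totient_pos.2 hq0
  obtain ⟨v, hv⟩ : ∃ v : ℝ, v = ε * Real.log X := ⟨_, rfl⟩
  have hv0 : 0 ≤ v := by rw [hv]; positivity
  have hvΛ : v ≤ Λ * Real.log X := by
    rw [hv]
    exact mul_le_mul_of_nonneg_right hεΛ (by linarith)
  obtain ⟨W, hWdef⟩ : ∃ W, W = Wm X := ⟨_, rfl⟩
  have hW : 0 < W := by rw [hWdef]; exact Wm_pos X
  have hW' : (0 : ℝ) < W := by exact_mod_cast hW
  obtain ⟨c0, hc0⟩ : ∃ c0 : ℕ, c0 = W.count (cp W q e) := ⟨_, rfl⟩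
  have hcount : c0 * q.totient = W.totient := by
    have h1 : q ∣ W := by rw [hWdef]; exact hdvd
    obtain ⟨W', hW'e⟩ := h1
    have hsq : Squarefree (q * W') := by
      rw [← hW'e, hWdef]
      exact squarefree_Wm X
    have hcop : q.Coprime W' := Nat.coprime_of_squarefree_mul hsq
    rw [hc0, hW'e]
    refine count_cp q W' e hcop hq0 ?_ he
    rcases Nat.eq_zero_or_pos W' with h0 | h0
    · rw [h0, mul_zero] at hW'e
      omega
    · exact h0
  have hset : (AQ ε Λ q e X b).card =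
      ((Ico (b + 1) (b + 1 + ⌊v⌋₊)).filter (cp W q e)).card := by
    unfold AQ
    rw [← hv]
    apply Finset.card_bij (fun a _ => b + a)
    · intro a ha
      simp only [BB, Finset.mem_filter, Finset.mem_Icc] at ha
      obtain ⟨⟨⟨h1, h2⟩, h3⟩, h4, h5⟩ := ha
      simp only [Finset.mem_filter, Finset.mem_Ico]
      refine ⟨⟨by omega, by omega⟩, ?_, h5⟩
      rw [hWdef]
      exact h3.symm
    · intro a _ a' _ h
      exact Nat.add_left_cancel h
    · intro x hx
      simp only [Finset.mem_filter, Finset.mem_Ico] at hx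
      obtain ⟨⟨h1, h2⟩, h3, h4⟩ := hx
      refine ⟨x - b, ?_, by omega⟩
      simp only [BB, Finset.mem_filter, Finset.mem_Icc]
      have h7 : x - b ≤ ⌊v⌋₊ := by omega
      have h9 : ⌊v⌋₊ ≤ ⌊Λ * Real.log X⌋₊ := Nat.floor_le_floor hvΛ
      have h8 : b + (x - b) = x := by omega
      rw [h8]
      refine ⟨⟨⟨by omega, by omega⟩, ?_⟩, h7, h4⟩
      rw [← hWdef]
      exact h3.symm
  rw [hset]
  have h1 := card_intervalG (cp W q e) W (b + 1) ⌊v⌋₊ hW
    (cp_periodic W q e (by rw [hWdef]; exact hdvd))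
  rw [← hc0] at h1
  have hL : |((⌊v⌋₊ : ℕ) : ℝ) - v| ≤ 1 := by
    have a3 := Nat.floor_le hv0
    have a4 := Nat.lt_floor_add_one v
    rw [abs_le]
    constructor <;> linarith
  have hφ : (0 : ℝ) ≤ c0 := Nat.cast_nonneg _
  have hφW : (0 : ℝ) ≤ (c0 : ℝ) / W := by positivity
  have hφW1 : (c0 : ℝ) / W ≤ c0 := by
    rw [div_le_iff₀ hW']
    have : (1 : ℝ) ≤ W := by exact_mod_cast hW
    nlinarith
  have h2 : |((⌊v⌋₊ : ℕ) : ℝ) * (c0 / W) - v * (c0 / W)| ≤ c0 := by
    rw [← sub_mul, abs_mul, abs_of_nonneg hφW]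
    calc _ ≤ 1 * ((c0 : ℝ) / W) := mul_le_mul_of_nonneg_right hL hφW
      _ ≤ _ := by rw [one_mul]; exact hφW1
  have h3 : |((((Ico (b + 1) (b + 1 + ⌊v⌋₊)).filter (cp W q e)).card : ℕ) : ℝ) -
      v * (c0 / W)| ≤ 2 * c0 := by
    have := abs_sub_le ((((Ico (b + 1) (b + 1 + ⌊v⌋₊)).filter (cp W q e)).card : ℕ) : ℝ)
        (((⌊v⌋₊ : ℕ) : ℝ) * (c0 / W)) (v * (c0 / W))
    linarith
  have hmain : ε / q.totient * Real.log X * (Nat.totient (Wm X) / Wm X) = v * (c0 / W) := by
    rw [← hWdef, ← hcount, hv]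
    push_cast
    field_simp
  rw [hmain]
  refine h3.trans ?_
  have hsq : Real.sqrt (Real.log X) * Real.sqrt (Real.log X) = Real.log X :=
    Real.mul_self_sqrt (by linarith)
  have hsq1 : 2 / (s * ε) ≤ Real.sqrt (Real.log X) := by
    apply Real.le_sqrt_of_sq_le
    exact hlog2
  have hWs : (W : ℝ) ≤ Real.sqrt (Real.log X) := by
    rw [hWdef]
    exact Wm_le X hlog1
  have hsκ : 0 < s * ε := by positivity
  have key : 2 * (W : ℝ) ≤ s * v := by
    have h5 : 2 ≤ s * ε * Real.sqrt (Real.log X) := by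
      rw [div_le_iff₀ hsκ] at hsq1
      linarith
    have h6 : 2 * (W : ℝ) ≤ s * ε * Real.sqrt (Real.log X) * Real.sqrt (Real.log X) := by
      have h0 : 0 ≤ Real.sqrt (Real.log X) := Real.sqrt_nonneg _
      nlinarith
    have h7 : s * ε * Real.sqrt (Real.log X) * Real.sqrt (Real.log X) = s * v := by
      rw [mul_assoc, hsq, hv]; ring
    linarith
  calc 2 * (c0 : ℝ) = (2 * W) * (c0 / W) := by field_simp
    _ ≤ (s * v) * (c0 / W) := mul_le_mul_of_nonneg_right key hφW
    _ = s * (v * (c0 / W)) := by ring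

end Pool.Agent.H961PP
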