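import Pool.Agent.H961PP.Pos
import Pool.Agent.H961C9.Loc

/-! Values of integer-valued polynomials at the indices of a positive proportion of the primes. -/

set_option autoImplicit false

open Finset Polynomial

namespace Pool.Agent.H961PP

open Pool.Agent.H961C9 (periodic crt)

open Classical in
/-- **No local obstruction for a positive proportion of the indices.** -/
theorem familyPos {s : ℕ} (P : Fin s → ℚ[X]) (hP : ∀ i (m : ℤ), ∃ v : ℤ, (P i).eval (m : ℚ) = v)
    (b : Fin s → ℕ) (u c : ℕ) (hu : 1 ≤ u) (w z : ℕ)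
    (hloc : ∀ l : ℕ, l.Prime → w < l → ∃ x y : ℤ, (u : ℤ) ∣ y - c ∧ ¬ (l : ℤ) ∣ x ∧
      ∀ i, ∀ v : ℤ, (P i).eval (y : ℚ) = v → ¬ (l : ℤ) ∣ x + 2 * v) (R : ℕ) (ε : ℝ) (hε : 0 < ε) :
    ∃ δ : ℝ, 0 < δ ∧ ∃ N₀ : ℕ, ∀ N : ℕ, N₀ ≤ N →
      δ * N ≤ (((Icc 1 N).filter (fun n => n ≡ c [MOD u] ∧
        ((Nat.nth Nat.Prime (n + R - 1) : ℕ) : ℝ) ≤ Nat.nth Nat.Prime (n - 1) +
          ε * Real.log (Nat.nth Nat.Prime (n - 1)) ∧
        ∀ i, ∃ v : ℤ, (P i).eval (n : ℚ) = v ∧
          ∀ l : ℕ, l.Prime → w < l → l ≤ z →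
            ¬ (l : ℤ) ∣ ((Nat.nth Nat.Prime (n + b i - 1) : ℕ) : ℤ) + 2 * v)).card : ℝ) := by
  choose D hD using fun i => periodic (P i)
  obtain ⟨r, hr⟩ : ∃ r, r = ∑ i, b i + R := ⟨_, rfl⟩
  have hbr : ∀ i, b i ≤ r := fun i => by
    have := single_le_sum (f := b) (fun i _ => Nat.zero_le _) (mem_univ i)
    omega
  obtain ⟨K, hK⟩ : ∃ K, K = ∑ i, D i + u + 1 := ⟨_, rfl⟩
  have hKD : ∀ i, D i ≤ K := fun i => by
    have := single_le_sum (f := D) (fun i _ => Nat.zero_le _) (mem_univ i)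
    omega
  obtain ⟨T, hT⟩ : ∃ T : Finset ℕ, T = (range (z + u + 1)).filter Nat.Prime := ⟨_, rfl⟩
  have hTp : ∀ l ∈ T, l.Prime := fun l hl => by
    rw [hT] at hl
    exact (mem_filter.1 hl).2
  have hTm : ∀ l : ℕ, l.Prime → l ≤ z + u → l ∈ T := fun l hl h => by
    rw [hT, mem_filter, mem_range]
    exact ⟨by omega, hl⟩
  have hloc' : ∀ l : ℕ, l.Prime → ∃ x y : ℤ, (u : ℤ) ∣ y - c ∧ ¬ (l : ℤ) ∣ x ∧
      (w < l → ∀ i, ∀ v : ℤ, (P i).eval (y : ℚ) = v → ¬ (l : ℤ) ∣ x + 2 * v) := by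
    intro l hl
    by_cases hw : w < l
    · obtain ⟨x, y, h1, h2, h3⟩ := hloc l hl hw
      exact ⟨x, y, h1, h2, fun _ => h3⟩
    · refine ⟨1, c, by simp, ?_, fun h => absurd h hw⟩
      intro h3
      have h4 := Int.le_of_dvd one_pos h3
      have := hl.two_le
      omega
  choose! x y hy hx hxy using hloc'
  obtain ⟨c', hc'⟩ := crt T hTp K y
  obtain ⟨e, he⟩ := crt T hTp 1 x
  obtain ⟨q, hq⟩ : ∃ q, q = ∏ l ∈ T, l := ⟨_, rfl⟩
  obtain ⟨u', hu'⟩ : ∃ u', u' = ∏ l ∈ T, l ^ K := ⟨_, rfl⟩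
  have hqs : Squarefree q := by
    rw [hq]
    apply Finset.squarefree_prod_of_pairwise_isCoprime
    · intro p hp r hr hpr
      exact Nat.coprime_iff_isRelPrime.1 ((Nat.coprime_primes (hTp p hp) (hTp r hr)).2 hpr)
    · intro p hp
      exact (hTp p hp).squarefree
  have hu'1 : 1 ≤ u' := by
    rw [hu']
    exact Finset.prod_pos fun l hl => pow_pos (hTp l hl).pos _
  have hlq : ∀ l ∈ T, l ∣ q := fun l hl => by
    rw [hq]
    exact dvd_prod_of_mem _ hl
  have hlu : ∀ l ∈ T, l ^ K ∣ u' := fun l hl => by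
    rw [hu']
    exact dvd_prod_of_mem (fun l => l ^ K) hl
  have hecop : e.Coprime q := by
    rw [hq]
    apply Nat.Coprime.prod_right
    intro l hl
    rw [Nat.coprime_comm, (hTp l hl).coprime_iff_not_dvd]
    intro hle
    have h2 := he l hl
    rw [pow_one] at h2
    apply hx l (hTp l hl)
    have h3 : (l : ℤ) ∣ (e : ℤ) := by exact_mod_cast hle
    have h4 := dvd_sub h3 h2
    have h5 : (e : ℤ) - ((e : ℤ) - x l) = x l := by ring
    rwa [h5] at h4
  obtain ⟨δ, hδ, N₀, hN₀⟩ := pos q e hqs hecop u' (c' + u' - 1) r hu'1 ε hε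
  refine ⟨δ, hδ, N₀, fun N hN => ?_⟩
  refine (hN₀ N hN).trans ?_
  have hle : ((range N).filter (fun j => Str q e u' (c' + u' - 1) r ε j)).card ≤
      ((Icc 1 N).filter (fun n => n ≡ c [MOD u] ∧
        ((Nat.nth Nat.Prime (n + R - 1) : ℕ) : ℝ) ≤ Nat.nth Nat.Prime (n - 1) +
          ε * Real.log (Nat.nth Nat.Prime (n - 1)) ∧
        ∀ i, ∃ v : ℤ, (P i).eval (n : ℚ) = v ∧
          ∀ l : ℕ, l.Prime → w < l → l ≤ z →
            ¬ (l : ℤ) ∣ ((Nat.nth Nat.Prime (n + b i - 1) : ℕ) : ℤ) + 2 * v)).card := by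
    apply card_le_card_of_injOn (fun j => j + 1)
    · intro j hj
      rw [mem_coe, mem_filter, mem_range] at hj
      obtain ⟨hj1, hj2, hj3, hj4⟩ := hj
      unfold Pool.Agent.H361R2.PP.P at hj3 hj4
      rw [mem_coe, mem_filter, mem_Icc]
      obtain ⟨n, hn⟩ : ∃ n, n = j + 1 := ⟨_, rfl⟩
      beta_reduce
      rw [← hn]
      have hjn : j = n - 1 := by omega
      have h8 : n ≡ c' [MOD u'] := by
        have e1 := hj2.add_right 1
        have e2 : c' + u' - 1 + 1 = c' + u' := by omega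
        rw [e2, ← hn] at e1
        exact e1.trans (by
          show (c' + u') % u' = c' % u'
          rw [Nat.add_mod_right])
      have hny : ∀ l ∈ T, ((l : ℤ) ^ K) ∣ (n : ℤ) - y l := by
        intro l hl
        have e1 : ((l ^ K : ℕ) : ℤ) ∣ (n : ℤ) - c' :=
          Nat.modEq_iff_dvd.1 ((h8.of_dvd (hlu l hl)).symm)
        have e2 := dvd_add (by push_cast at e1; exact e1) (hc' l hl)
        have e3 : (n : ℤ) - c' + ((c' : ℤ) - y l) = (n : ℤ) - y l := by ring
        rwa [e3] at e2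
      refine ⟨by omega, ?_, ?_, ?_⟩
      · -- the class modulo `u`
        have e1 : (u : ℤ) ∣ (n : ℤ) - c := by
          rw [← Int.natAbs_dvd_natAbs, Int.natAbs_natCast, Nat.dvd_iff_prime_pow_dvd_dvd]
          intro l k hl hlk
          rcases Nat.eq_zero_or_pos k with h0 | h0
          · rw [h0, pow_zero]
            exact one_dvd _
          · have f1 : l ∣ u := (dvd_pow_self l h0.ne').trans hlk
            have f2 : l ≤ u := Nat.le_of_dvd hu f1
            have f3 : l ∈ T := hTm l hl (by omega)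
            have f4 : k ≤ K := by
              have f5 := Nat.le_of_dvd hu hlk
              have f6 : k < l ^ k := Nat.lt_pow_self hl.one_lt
              omega
            have f7 : ((l : ℤ) ^ k) ∣ (n : ℤ) - y l := (pow_dvd_pow _ f4).trans (hny l f3)
            have f8 : ((l : ℤ) ^ k) ∣ y l - c := by
              have : ((l ^ k : ℕ) : ℤ) ∣ (u : ℤ) := by exact_mod_cast hlk
              push_cast at this
              exact this.trans (hy l hl)
            have f9 := dvd_add f7 f8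
            have f10 : (n : ℤ) - y l + (y l - c) = (n : ℤ) - c := by ring
            rw [f10] at f9
            have f11 := Int.natAbs_dvd_natAbs.2 f9
            rwa [Int.natAbs_pow, Int.natAbs_natCast] at f11
        exact (Nat.modEq_iff_dvd.2 e1).symm
      · have e1 : n + R - 1 ≤ j + r := by omega
        have e2 : Nat.nth Nat.Prime (n + R - 1) ≤ Nat.nth Nat.Prime (j + r) :=
          Nat.nth_monotone Nat.infinite_setOfPred_prime e1
        have e3 : ((Nat.nth Nat.Prime (n + R - 1) : ℕ) : ℝ) ≤ Nat.nth Nat.Prime (j + r) := by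
          exact_mod_cast e2
        rw [← hjn]
        linarith
      · intro i
        obtain ⟨v, hv⟩ := hP i (n : ℤ)
        refine ⟨v, by exact_mod_cast hv, fun l hl hlw hlz hd => ?_⟩
        have hlT : l ∈ T := hTm l hl (by omega)
        obtain ⟨v', hv'⟩ := hP i (y l)
        have e1 := hD i l hl K (hKD i) n (y l) v v' (hny l hlT) hv hv'
        have f2 := hj3 (b i) (hbr i)
        have e0 : n + b i - 1 = j + b i := by omega
        rw [e0] at hd
        have e2 : (l : ℤ) ∣ ((Nat.nth Nat.Prime (j + b i) : ℕ) : ℤ) - e :=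
          Nat.modEq_iff_dvd.1 ((f2.of_dvd (hlq l hlT)).symm)
        have e3 := he l hlT
        rw [pow_one] at e3
        apply hxy l hl hlw i v' hv'
        have e4 := dvd_sub hd (dvd_add (dvd_add e2 e3) (e1.mul_left 2))
        have e5 : ((Nat.nth Nat.Prime (j + b i) : ℕ) : ℤ) + 2 * v -
            ((((Nat.nth Nat.Prime (j + b i) : ℕ) : ℤ) - e) + ((e : ℤ) - x l) + 2 * (v - v')) =
              x l + 2 * v' := by ring
        rwa [e5] at e4
    · intro j _ j' _ h
      simp only at h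
      omega
  exact_mod_cast hle

end Pool.Agent.H961PP
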