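import Pool.Agent.H961PP.ClsG
import Pool.Agent.H361R2.PP.Main3

/-! The master theorem for arbitrary sets of shifts (after Pool.Agent.H361R2.PP.Main3, helper361). -/

set_option autoImplicit false

open Finset

namespace Pool.Agent.H961PP

open Pool.Agent.H361R2.PP
open Pool.Agent.H410R2.AC (wt GG cfg term WW pos Inj coef)

open Classical in
theorem masterG (hSM : SM) (hTy : Pool.Agent.H410R2.AC.Types) (hGGT : GGTypes)
    (hGGS : GGSharp) (hMer : Mer) (hMrv : Mrv) (hCnt : Cnt) (hPnt : PntX) (hCol : Col)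
    (hCob : Cob) (hMni : Mni) (hPz : Pz) (hCs : Cs) (hWtx : Wtx)
    (m : ℕ) (ε Λ : ℝ) (hε : 0 < ε) (hΛ : 0 < Λ) (𝒜 : ℕ → ℕ → Finset ℕ)
    (h𝒜 : ∀ X b, 𝒜 X b ⊆ BB X b ⌊Λ * Real.log X⌋₊)
    (hcard : ∀ s : ℝ, 0 < s → ∃ X₀ : ℕ, ∀ X : ℕ, X₀ ≤ X → ∀ b : ℕ,
      |((𝒜 X b).card : ℝ) - ε * Real.log X * (Nat.totient (Wm X) / Wm X)| ≤
        s * (ε * Real.log X * (Nat.totient (Wm X) / Wm X))) :
    ∃ c : ℝ, 0 < c ∧ ∃ X₀ : ℕ, ∀ X : ℕ, X₀ ≤ X → HH X < X ∧ ∀ b < Wm X,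
      (X : ℝ) / Wm X * c ≤ (((SI X b).filter (fun n => m ≤ Np (𝒜 X b) n ∧
        Np ((BB X b ⌊Λ * Real.log X⌋₊).filter (fun a => a ∉ 𝒜 X b)) n = 0)).card : ℝ) := by
  obtain ⟨k, hk⟩ : ∃ k : ℕ, k = 1 := ⟨_, rfl⟩
  obtain ⟨ξ, hξ⟩ : ∃ ξ : ℝ, ξ = 1 / (8 * ((k : ℝ) + 1)) := ⟨_, rfl⟩
  have hk0 : (0 : ℝ) ≤ k := Nat.cast_nonneg k
  have hξ0 : 0 < ξ := by rw [hξ]; positivity
  have hξ1 : ξ ≤ 1 / 8 := by
    rw [hξ, div_le_div_iff₀ (by positivity) (by norm_num)]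
    linarith
  obtain ⟨s', hs'⟩ : ∃ s' : ℝ, s' = ξ / 16 := ⟨_, rfl⟩
  obtain ⟨s, hs⟩ : ∃ s : ℝ, s = ξ / (3000 * (Λ + 1)) := ⟨_, rfl⟩
  obtain ⟨θ, hθ⟩ : ∃ θ : ℝ, θ = ξ / 96 := ⟨_, rfl⟩
  have hs'0 : 0 < s' := by rw [hs']; linarith
  have hs0 : 0 < s := by rw [hs]; positivity
  have hθ0 : 0 < θ := by rw [hθ]; linarith
  have hθ1 : θ ≤ 1 / 32 := by rw [hθ]; linarith
  have hsξ : s ≤ ξ / 3000 := by
    rw [hs]
    apply div_le_div_of_nonneg_left hξ0.le (by norm_num)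
    linarith
  have hs1 : s ≤ 1 := by linarith
  have h7 : 7 * s ≤ s' := by rw [hs']; linarith
  obtain ⟨μ, hμd⟩ : ∃ μ : ℝ, μ = max (2 * ((m : ℝ) + 1) / s') ε := ⟨_, rfl⟩
  have hμ1 : 2 * ((m : ℝ) + 1) / s' ≤ μ := by rw [hμd]; exact le_max_left _ _
  have hμ2 : ε ≤ μ := by rw [hμd]; exact le_max_right _ _
  obtain ⟨hm, hμ0, hξi⟩ := xi_ineq (m := m) hξ0 hξ1 hs' hs0.le hsξ hμ1
  obtain ⟨c, hcd⟩ : ∃ c : ℝ, c = Real.sqrt (μ / ε) - 1 := ⟨_, rfl⟩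
  have hμε : 1 ≤ μ / ε := by rwa [le_div_iff₀ hε, one_mul]
  have hc : 0 ≤ c := by
    rw [hcd, sub_nonneg]
    exact Real.one_le_sqrt.2 hμε
  have hμc : μ = ε * (1 + c) ^ 2 := by
    rw [hcd, add_sub_cancel, Real.sq_sqrt (by positivity)]
    field_simp
  obtain ⟨CT, hCT1, hCT⟩ := hGGT
  obtain ⟨CM, hCM1, hCM⟩ := hMer
  obtain ⟨η', hη'⟩ : ∃ η' : ℝ, η' = s / 2 / (2 * (1 + c) ^ 2 * Λ * CM) := ⟨_, rfl⟩
  have hη'0 : 0 < η' := by rw [hη']; positivity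
  obtain ⟨t, u, β, V₀, hV₀, huβ, hβ1, hu, hty⟩ := hTy CT η' (θ / 2) hCT1 hη'0 (by linarith)
  have h1c : (1 : ℝ) ≤ (1 + c) ^ 2 := by nlinarith
  obtain ⟨δ₀, hδ₀, hsm⟩ := hSM t u ((1 + c) ^ 2) Λ θ s (fun τ => (huβ τ).1) hu hθ0 hθ1 h1c hΛ hs0
  obtain ⟨dβ, hdβ0, hdβ⟩ : ∃ d : ℝ, 0 < d ∧ ∀ τ, d ≤ β τ / η' := by
    refine ⟨1 / (∑ τ, η' / β τ + 1), ?_, fun τ => ?_⟩
    · have : 0 ≤ ∑ τ, η' / β τ := sum_nonneg fun τ _ => (div_pos hη'0 (huβ τ).2).le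
      positivity
    · have h1 : η' / β τ ≤ ∑ τ, η' / β τ :=
        single_le_sum (f := fun τ => η' / β τ) (fun τ _ => (div_pos hη'0 (huβ τ).2).le)
          (mem_univ τ)
      have h2 : 0 < η' / β τ := div_pos hη'0 (huβ τ).2
      calc 1 / (∑ τ, η' / β τ + 1) ≤ 1 / (η' / β τ) :=
            one_div_le_one_div_of_le h2 (by linarith)
        _ = β τ / η' := by rw [one_div_div]
  obtain ⟨δ, hδd⟩ : ∃ δ : ℝ, δ = min (min δ₀ V₀) (min (1 / 8) dβ) := ⟨_, rfl⟩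
  have hδ0 : 0 < δ := by
    rw [hδd]
    exact lt_min (lt_min hδ₀ hV₀) (lt_min (by norm_num) hdβ0)
  have hδ1 : δ ≤ δ₀ := by rw [hδd]; exact (min_le_left _ _).trans (min_le_left _ _)
  have hδ2 : δ ≤ V₀ := by rw [hδd]; exact (min_le_left _ _).trans (min_le_right _ _)
  have hδ3 : δ ≤ 1 / 8 := by rw [hδd]; exact (min_le_right _ _).trans (min_le_left _ _)
  have hδ4 : δ ≤ dβ := by rw [hδd]; exact (min_le_right _ _).trans (min_le_right _ _)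
  obtain ⟨C, X1, hC, hSMX⟩ := hsm δ hδ0 hδ1
  obtain ⟨X2, hGX⟩ := hCT δ hδ0 hδ3
  obtain ⟨X3, hMX⟩ := hCM δ hδ0 (by linarith)
  obtain ⟨X4, hVX⟩ := hMrv δ (s / ((1 + c) ^ 2 * η' * δ * t + 1)) hδ0 (by linarith)
    (by positivity)
  obtain ⟨X5, hCX⟩ := hCnt s (min ε Λ) Λ hs0 (lt_min hε hΛ) hΛ
  obtain ⟨X9, hDX⟩ := hcard s hs0
  obtain ⟨X6, hPX⟩ := hPnt s hs0
  obtain ⟨X7, hWX⟩ := hWtx.2 δ hδ0 (by linarith)
  obtain ⟨X8, hFX⟩ := log_floor (a := 1 / 4 - 2 * θ) (θ := θ) (by linarith) hθ0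
  refine ⟨1 / (16 * (3 * k + 1) ^ 2 * C), by positivity,
    X1 + X2 + X3 + X4 + X5 + X6 + X7 + X8 + X9 + 2, fun X hX => ?_⟩
  have hX2 : 2 ≤ X := by omega
  have hX1 : 1 ≤ X := by omega
  have hL : 0 < Real.log X := Real.log_pos (by exact_mod_cast hX2)
  obtain ⟨hw1, -, hw3⟩ := hWX X (by omega)
  have hJ : 2 ^ 2 ^ JJ δ X ≤ X := by
    have h1 : (X : ℝ) ^ δ ≤ (X : ℝ) ^ (1 : ℝ) :=
      Real.rpow_le_rpow_of_exponent_le (by exact_mod_cast hX1) (by linarith)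
    rw [Real.rpow_one] at h1
    exact_mod_cast hw1.trans h1
  have hHX : HH X < X := lt_of_lt_of_le hw3 hJ
  obtain ⟨hV0, hM1, hM2⟩ := hMX X (by omega)
  obtain ⟨hF1, hF2⟩ := hFX X (by omega)
  refine ⟨hHX, fun b hb => ?_⟩
  rw [mul_one_div]
  -- families
  obtain ⟨S, hS1, hS2, hS3, hS4⟩ := fam_of (X := X) (T := θ / 2) hδ0 hL (by linarith)
    (hty δ · · · hδ0 hδ2) (hGX X (by omega))
  have hBcnt : ((BB X b ⌊Λ * Real.log X⌋₊).card : ℝ) ≤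
      (1 + s) * (Λ * Real.log X * (Nat.totient (Wm X) / Wm X)) := by
    have h1 := hCX X (by omega) b 0 (Λ * Real.log X) le_rfl (by
      rw [zero_add]
      exact mul_le_mul_of_nonneg_right (min_le_right _ _) hL.le) le_rfl
    rw [sub_zero] at h1
    have h2 : (BB X b ⌊Λ * Real.log X⌋₊).filter
        (fun a : ℕ => (0 : ℝ) < a ∧ (a : ℝ) ≤ Λ * Real.log X) = BB X b ⌊Λ * Real.log X⌋₊ := by
      apply filter_true_of_mem
      intro a ha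
      rw [mem_BB] at ha
      refine ⟨by exact_mod_cast ha.1, ?_⟩
      exact (Nat.le_floor_iff (by positivity)).1 ha.2.1
    rw [h2] at h1
    linarith [(abs_le.1 h1).2]
  obtain ⟨D, hsit, hDcf⟩ := sit_of (CM := CM) (X := X) (b := b) (θ := θ) (C := C) hc hs0 hs1 hδ0
    hη'0 hΛ (by linarith) hη' (fun τ => (huβ τ).2) hβ1 (fun τ => hδ4.trans (hdβ τ)) hL S hS1
    hS2 hS3 hS4
    (fun a => if ∃ i : Fin k, a ∈ (fun _ : Fin k => 𝒜 X b) i then c else -1)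
    (by intro a; split_ifs; exacts [Or.inl rfl, Or.inr rfl])
    (fun D B hB c hc => hSMX X (by omega) b hb D B hB c hc) hBcnt hV0 hM1 (hVX X (by omega)) hJ
  have hfinal := clsG hCol hCob hMni hPz hCs hsit hX1 hHX hL hθ0 hθ1 hC hΛ k m
    (fun _ : Fin k => 𝒜 X b) (fun _ => h𝒜 X b) ε hε
    (fun a => by rw [hDcf]) (fun _ => hDX X (by omega) b) hBcnt (hPX X (by omega))
    (VG_le hGGS hθ0 hθ1 hX1 hM2 hV0 hF1 hF2) s' μ ξ h7 (by linarith) hμc hm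
    (by rw [hθ]; exact hξi) (fin_ineq hξ hs' hΛ hs)
  refine hfinal.trans ?_
  have hsub : (SI X b).filter (fun n => k ≤ 4 * Gd m (fun _ : Fin k => Np (𝒜 X b)) n ∧
      Np (EG X b ⌊Λ * Real.log X⌋₊ (fun _ : Fin k => 𝒜 X b)) n = 0) ⊆
      (SI X b).filter (fun n => m ≤ Np (𝒜 X b) n ∧
        Np ((BB X b ⌊Λ * Real.log X⌋₊).filter (fun a => a ∉ 𝒜 X b)) n = 0) := by
    intro n hn
    rw [mem_filter] at hn ⊢
    refine ⟨hn.1, ?_, ?_⟩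
    · by_contra hcon
      have h1 : Gd m (fun _ : Fin k => Np (𝒜 X b)) n = 0 := by
        unfold Gd
        rw [card_eq_zero, filter_eq_empty_iff]
        intro i _
        exact hcon
      have h2 := hn.2.1
      rw [h1] at h2
      omega
    · have h2 := hn.2.2
      have h3 : EG X b ⌊Λ * Real.log X⌋₊ (fun _ : Fin k => 𝒜 X b) =
          (BB X b ⌊Λ * Real.log X⌋₊).filter (fun a => a ∉ 𝒜 X b) := by
        unfold EG
        apply filter_congr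
        intro a _
        constructor
        · intro h ha
          exact h ⟨⟨0, by omega⟩, ha⟩
        · rintro h ⟨_, ha⟩
          exact h ha
      rw [h3] at h2
      exact h2
  exact_mod_cast card_le_card hsub

end Pool.Agent.H961PP
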