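import Pool.Agent.H961PP.MainG
import Pool.Agent.H961PP.Cnt
import Pool.Agent.H361R2.PP.Asm2

/-! A positive proportion of the indices in a class begin a short string of consecutive primes in a
given residue class. -/

set_option autoImplicit false

open Finset

namespace Pool.Agent.H961PP

open Pool.Agent.H361R2.PP

theorem masterF (m : ℕ) (ε Λ : ℝ) (hε : 0 < ε) (hΛ : 0 < Λ) (𝒜 : ℕ → ℕ → Finset ℕ)
    (h𝒜 : ∀ X b, 𝒜 X b ⊆ BB X b ⌊Λ * Real.log X⌋₊)
    (hcard : ∀ s : ℝ, 0 < s → ∃ X₀ : ℕ, ∀ X : ℕ, X₀ ≤ X → ∀ b : ℕ,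
      |((𝒜 X b).card : ℝ) - ε * Real.log X * (Nat.totient (Wm X) / Wm X)| ≤
        s * (ε * Real.log X * (Nat.totient (Wm X) / Wm X))) :
    ∃ c : ℝ, 0 < c ∧ ∃ X₀ : ℕ, ∀ X : ℕ, X₀ ≤ X → HH X < X ∧ ∀ b < Wm X,
      (X : ℝ) / Wm X * c ≤ (((SI X b).filter (fun n => m ≤ Np (𝒜 X b) n ∧
        Np ((BB X b ⌊Λ * Real.log X⌋₊).filter (fun a => a ∉ 𝒜 X b)) n = 0)).card : ℝ) := by
  convert masterG sm Pool.Agent.H708R2.types (Pool.Agent.H488R2.ggtypes Pool.Agent.H325R2.wtx)
    Pool.Agent.H633R2.ggSharp (Pool.Agent.H488R2.mer Pool.Agent.H325R2.wtx)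
    (Pool.Agent.H488R2.mrv Pool.Agent.H325R2.wtx) Pool.Agent.H363R2.PPCnt.cnt
    Pool.Agent.H325R2.pnt Pool.Agent.H872R2.PPCol.col Pool.Agent.H872R2.PPCol.cob
    Pool.Agent.H433R2.PPMni.mni Pool.Agent.H909R2.pz_holds Pool.Agent.H909R2.cs_holds
    Pool.Agent.H325R2.wtx m ε Λ hε hΛ 𝒜 h𝒜 hcard

/-- the good integers -/
def GoodQ (m : ℕ) (ε Λ : ℝ) (q e X n : ℕ) : Prop :=
  m ≤ ((Icc 1 ⌊Λ * Real.log X⌋₊).filter (fun a => (n + a).Prime)).card ∧
    ∀ a ∈ Icc 1 ⌊Λ * Real.log X⌋₊, (n + a).Prime → a ≤ ⌊ε * Real.log X⌋₊ ∧ n + a ≡ e [MOD q]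

open Classical in
theorem ints (q e : ℕ) (hq : Squarefree q) (he : e.Coprime q) (m : ℕ) (ε Λ : ℝ) (hε : 0 < ε)
    (hεΛ : ε ≤ Λ) : ∃ c : ℝ, 0 < c ∧ ∃ X₀ : ℕ, ∀ X : ℕ, X₀ ≤ X →
      c * X ≤ (((Ico X (2 * X)).filter (fun n => GoodQ m ε Λ q e X n)).card : ℝ) := by
  have hΛ : 0 < Λ := lt_of_lt_of_le hε hεΛ
  have hq0 : 0 < q := Nat.pos_of_ne_zero hq.ne_zero
  have hφq : (0 : ℝ) < q.totient := by exact_mod_cast Nat.totient_pos.2 hq0
  obtain ⟨c, hc, X₀, hX₀⟩ := masterF m (ε / q.totient) Λ (div_pos hε hφq) hΛ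
    (fun X b => AQ ε Λ q e X b) (fun X b => AQ_sub ε Λ q e X b)
    (fun s hs => cntQ q e hq he ε Λ hε hεΛ s hs)
  obtain ⟨X₁, hX₁⟩ := dvd_Wm q hq
  refine ⟨c, hc, X₀ + X₁, fun X hX => ?_⟩
  obtain ⟨hHX, hall⟩ := hX₀ X (by omega)
  have hdvd := hX₁ X (by omega)
  have hW := Wm_pos X
  have h1 : ((Ico X (2 * X)).filter (fun n => GoodQ m ε Λ q e X n)).card =
      ∑ b ∈ range (Wm X), ((SI X b).filter (fun n => GoodQ m ε Λ q e X n)).card := by
    rw [card_eq_sum_card_fiberwise (f := fun n => n % Wm X) (t := range (Wm X))]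
    · refine sum_congr rfl fun b _ => ?_
      congr 1
      ext n
      simp only [mem_filter, mem_SI, mem_Ico]
      tauto
    · intro n _
      simp only [coe_range, Set.mem_Iio]
      exact Nat.mod_lt _ hW
  rw [h1]
  push_cast
  calc c * X = ∑ b ∈ range (Wm X), (X : ℝ) / Wm X * c := by
        rw [sum_const, card_range, nsmul_eq_mul]
        have : (Wm X : ℝ) ≠ 0 := by exact_mod_cast hW.ne'
        field_simp
    _ ≤ _ := by
        refine sum_le_sum fun b hb => (hall b (mem_range.1 hb)).trans ?_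
        have hsub : (SI X b).filter (fun n => m ≤ Np (AQ ε Λ q e X b) n ∧
            Np ((BB X b ⌊Λ * Real.log X⌋₊).filter (fun a => a ∉ AQ ε Λ q e X b)) n = 0) ⊆
            (SI X b).filter (fun n => GoodQ m ε Λ q e X n) := by
          intro n hn
          rw [mem_filter] at hn ⊢
          obtain ⟨hn1, hn2, hn3⟩ := hn
          refine ⟨hn1, ?_, ?_⟩
          · refine hn2.trans ?_
            unfold Np
            apply card_le_card
            intro a ha
            rw [mem_filter] at ha ⊢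
            obtain ⟨ha1, ha2⟩ := ha
            have ha3 := mem_BB.1 (AQ_sub ε Λ q e X b ha1)
            rw [mem_Icc]
            exact ⟨⟨ha3.1, ha3.2.1⟩, ha2⟩
          · intro a ha hp
            rw [mem_Icc] at ha
            have hB := prime_BB hHX hn1 ha.1 ha.2 hp
            have hA : a ∈ AQ ε Λ q e X b := by
              by_contra hcon
              have h3 : a ∈ ((BB X b ⌊Λ * Real.log X⌋₊).filter
                  (fun a => a ∉ AQ ε Λ q e X b)).filter (fun a => (n + a).Prime) := by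
                rw [mem_filter, mem_filter]
                exact ⟨⟨hB, hcon⟩, hp⟩
              unfold Np at hn3
              rw [card_eq_zero] at hn3
              rw [hn3] at h3
              exact absurd h3 (notMem_empty a)
            unfold AQ at hA
            rw [mem_filter] at hA
            refine ⟨hA.2.1, ?_⟩
            have h4 : n ≡ b [MOD q] := by
              have h5 : n ≡ b [MOD Wm X] := by
                rw [mem_SI] at hn1
                have h6 := hn1.2.2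
                show n % Wm X = b % Wm X
                rw [h6, Nat.mod_eq_of_lt (mem_range.1 hb)]
              exact h5.of_dvd hdvd
            exact (h4.add_right a).trans hA.2.2
        exact_mod_cast card_le_card hsub

/-- the property of the indices -/
def Str (q e u c r : ℕ) (ε : ℝ) (j : ℕ) : Prop :=
  j ≡ c [MOD u] ∧ (∀ i ≤ r, P (j + i) ≡ e [MOD q]) ∧
    (P (j + r) : ℝ) ≤ P j + ε * Real.log (P j)

theorem good_str {q e u c r : ℕ} (hu : 1 ≤ u) {ε Λ : ℝ} (hε : 0 < ε) {X n : ℕ} (hX : 1 ≤ X)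
    (hn : X ≤ n) (h : GoodQ (u + r) ε Λ q e X n) :
    ∃ a ∈ Icc 1 ⌊Λ * Real.log X⌋₊, (n + a).Prime ∧ ∃ j, P j = n + a ∧ Str q e u c r ε j := by
  classical
  obtain ⟨hm, hall⟩ := h
  obtain ⟨M, hM⟩ : ∃ M, M = ⌊Λ * Real.log X⌋₊ := ⟨_, rfl⟩
  rw [← hM] at hm hall ⊢
  obtain ⟨J, hJ⟩ : ∃ J, J = Nat.count Nat.Prime (n + 1) := ⟨_, rfl⟩
  have hcnt : J + (u + r) ≤ Nat.count Nat.Prime (n + 1 + M) := by
    rw [Nat.count_add, ← hJ]
    apply Nat.add_le_add_left
    refine hm.trans ?_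
    rw [Nat.count_eq_card_filter_range]
    apply card_le_card_of_injOn (fun a => a - 1)
    · intro a ha
      rw [mem_coe, mem_filter, mem_Icc] at ha
      rw [mem_coe, mem_filter, mem_range]
      show a - 1 < M ∧ (n + 1 + (a - 1)).Prime
      refine ⟨by omega, ?_⟩
      have : n + 1 + (a - 1) = n + a := by omega
      rw [this]
      exact ha.2
    · intro a ha b hb hab
      rw [mem_coe, mem_filter, mem_Icc] at ha hb
      simp only at hab
      omega
  have hstr : ∀ i < u + r, ∃ a ∈ Icc 1 M, P (J + i) = n + a ∧ (n + a).Prime := by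
    intro i hi
    have h1 : Nat.nth Nat.Prime (J + i) < n + 1 + M :=
      Nat.nth_lt_of_lt_count (by omega)
    have h2 : n + 1 ≤ Nat.nth Nat.Prime (J + i) := by
      by_contra hcon
      push Not at hcon
      have h3 := Nat.count_strict_mono (Nat.prime_nth_prime (J + i)) hcon
      rw [Nat.count_nth_of_infinite Nat.infinite_setOfPred_prime, ← hJ] at h3
      omega
    have h4 : n + (Nat.nth Nat.Prime (J + i) - n) = Nat.nth Nat.Prime (J + i) := by omega
    refine ⟨Nat.nth Nat.Prime (J + i) - n, ?_, ?_, ?_⟩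
    · rw [mem_Icc]
      omega
    · unfold P
      rw [h4]
    · rw [h4]
      exact Nat.prime_nth_prime _
  obtain ⟨s, hs⟩ : ∃ s, s = (c + (u - J % u)) % u := ⟨_, rfl⟩
  have hsu : s < u := by
    rw [hs]
    exact Nat.mod_lt _ hu
  have hcls : J + s ≡ c [MOD u] := by
    have h1 : s ≡ c + (u - J % u) [MOD u] := by
      rw [hs]
      exact Nat.mod_modEq _ _
    have h2 : J ≡ J % u [MOD u] := (Nat.mod_modEq _ _).symm
    have h3 := h2.add h1
    have h4 : J % u < u := Nat.mod_lt _ hu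
    have h5 : J % u + (c + (u - J % u)) = c + u := by omega
    rw [h5] at h3
    exact h3.trans (by
      show (c + u) % u = c % u
      rw [Nat.add_mod_right])
  obtain ⟨a, ha, ha1, ha2⟩ := hstr s (by omega)
  obtain ⟨a', ha', ha1', ha2'⟩ := hstr (s + r) (by omega)
  refine ⟨a, ha, ha2, J + s, ha1, hcls, ?_, ?_⟩
  · intro i hi
    obtain ⟨a'', ha'', ha1'', ha2''⟩ := hstr (s + i) (by omega)
    rw [add_assoc, ha1'']
    exact (hall a'' ha'' ha2'').2
  · rw [add_assoc, ha1', ha1]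
    have h1 := (hall a' ha' ha2').1
    have hXr : (1 : ℝ) ≤ X := by exact_mod_cast hX
    have hlX : 0 ≤ Real.log X := Real.log_nonneg hXr
    have h2 : ((⌊ε * Real.log X⌋₊ : ℕ) : ℝ) ≤ ε * Real.log X := Nat.floor_le (by positivity)
    have h3 : (a' : ℝ) ≤ ε * Real.log X := by
      have : (a' : ℝ) ≤ ((⌊ε * Real.log X⌋₊ : ℕ) : ℝ) := by exact_mod_cast h1
      linarith
    have h4 : Real.log X ≤ Real.log ((n + a : ℕ) : ℝ) := by
      apply Real.log_le_log (by linarith)
      have : X ≤ n + a := by omega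
      exact_mod_cast this
    have h5 : ε * Real.log X ≤ ε * Real.log ((n + a : ℕ) : ℝ) := mul_le_mul_of_nonneg_left h4 hε.le
    have h6 : (0 : ℝ) ≤ a := Nat.cast_nonneg a
    push_cast at h5 ⊢
    linarith

open Classical in
/-- **A positive proportion of the indices in every class begin short strings of consecutive primes
in a given residue class.** -/
theorem pos (q e : ℕ) (hq : Squarefree q) (he : e.Coprime q) (u c r : ℕ) (hu : 1 ≤ u) (ε : ℝ)
    (hε : 0 < ε) : ∃ δ : ℝ, 0 < δ ∧ ∃ N₀ : ℕ, ∀ N : ℕ, N₀ ≤ N →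
      δ * N ≤ (((range N).filter (fun j => Str q e u c r ε j)).card : ℝ) := by
  obtain ⟨c₁, hc₁, X₀, hX₀⟩ := ints q e hq he (u + r) ε ε hε le_rfl
  obtain ⟨δ, hδ, htra⟩ := Pool.Agent.H403R2.PP.tra c₁ ε hc₁ hε
  obtain ⟨N₀, hN₀⟩ := htra (X₀ + 1)
  refine ⟨δ, hδ, N₀, fun N hN => ?_⟩
  obtain ⟨X, hX, hR⟩ := hN₀ N hN
  have h1 := hR (fun x => ∃ j, P j = x ∧ Str q e u c r ε j) (by
    refine (hX₀ X (by omega)).trans ?_
    have hsub : (Ico X (2 * X)).filter (fun n => GoodQ (u + r) ε ε q e X n) ⊆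
        (Ico X (2 * X)).filter (fun n => ∃ a ∈ Icc 1 ⌊ε * Real.log X⌋₊,
          (n + a).Prime ∧ ∃ j, P j = n + a ∧ Str q e u c r ε j) := by
      intro n hn
      rw [mem_filter, mem_Ico] at hn
      rw [mem_filter, mem_Ico]
      exact ⟨hn.1, good_str hu hε (by omega) hn.1.1 hn.2⟩
    exact_mod_cast card_le_card hsub)
  refine h1.trans ?_
  have hsub : (range N).filter (fun j => ∃ j', P j' = P j ∧ Str q e u c r ε j') ⊆
      (range N).filter (fun j => Str q e u c r ε j) := by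
    intro j hj
    rw [mem_filter] at hj ⊢
    refine ⟨hj.1, ?_⟩
    obtain ⟨j', h2, h3⟩ := hj.2
    have h4 : j' = j := Nat.nth_injective Nat.infinite_setOfPred_prime h2
    rw [h4] at h3
    exact h3
  exact_mod_cast card_le_card hsub

end Pool.Agent.H961PP
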